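import Mathlib
import Pool.Agent.MP_16de82_co.lg.Mn

set_option autoImplicit false

namespace Pool.Agent.Results.MP_16de82_co.MarkedBasis

/-- A finite family of vectors over a field of characteristic `p` with a basis `b` among them, of
which every proper subspace `W` misses at least `p s + (p - 1) min (s - 1, g)` members, where
`s` is the codimension of `W` and `g` is the dimension of `W` minus the number of members of `b`
in `W`, contains a basis and an Alon-Tarsi basis that are disjoint. -/
theorem result :
    ∀ (F : Type) [Field F] (p : ℕ), p.Prime → CharP F p →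
      ∀ (n : ℕ) (E : Type) [Fintype E] (v : E → Fin n → F) (b : Fin n → E),
        (Matrix.of fun (r k : Fin n) => v (b k) r).det ≠ 0 →
        (∀ W : Submodule F (Fin n → F), W ≠ ⊤ →
          p * (n - Module.finrank F W) + (p - 1) * min (n - Module.finrank F W - 1)
            (Module.finrank F W - {k | v (b k) ∈ W}.ncard) ≤ {e | v e ∉ W}.ncard) →
        ∃ f : (Fin n ⊕ (Fin (p - 1) × Fin n)) ↪ E,
          (Matrix.of fun (r k : Fin n) => v (f (Sum.inl k)) r).det ≠ 0 ∧
          (Matrix.of fun (x y : Fin (p - 1) × Fin n) => v (f (Sum.inr y)) x.2).permanent ≠ 0 :=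
  fun _ _ _ hp _ _ _ _ v b hb h => Pool.Agent.MP_16de82_co.lg.marked hp v b hb h

end Pool.Agent.Results.MP_16de82_co.MarkedBasis
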