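import Mathlib
import Pool.Agent.MP_16de82_co.Stage

set_option autoImplicit false

namespace Pool.Agent.Results.MP_16de82_co.NestedHeavy

open Pool.Agent.MP_16de82_co Finset

/-- The strong Alon-Tarsi basis conjecture holds whenever any two connected sets of more than `p`
columns have nested spans. -/
theorem result :
    ∀ (F : Type) [Field F] (p : ℕ), p.Prime → CharP F p →
      ∀ (n : ℕ) (B : Fin p → Matrix (Fin n) (Fin n) F),
        (∀ i, (B i).det ≠ 0) →
        (∀ K₁ K₂ : Finset (Fin p × Fin n),
          Connected F (fun c : Fin p × Fin n => (B c.1).col c.2) K₁ → p < K₁.card →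
          Connected F (fun c : Fin p × Fin n => (B c.1).col c.2) K₂ → p < K₂.card →
          Submodule.span F ((fun c : Fin p × Fin n => (B c.1).col c.2) '' K₁) ≤
              Submodule.span F ((fun c : Fin p × Fin n => (B c.1).col c.2) '' K₂) ∨
            Submodule.span F ((fun c : Fin p × Fin n => (B c.1).col c.2) '' K₂) ≤
              Submodule.span F ((fun c : Fin p × Fin n => (B c.1).col c.2) '' K₁)) →
        ∃ e : (Fin n ⊕ (Fin (p - 1) × Fin n)) ≃ (Fin p × Fin n),
          (Matrix.of fun (r k : Fin n) =>
              B (e (Sum.inl k)).1 r (e (Sum.inl k)).2).det ≠ 0 ∧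
          (Matrix.of fun (x y : Fin (p - 1) × Fin n) =>
              B (e (Sum.inr y)).1 x.2 (e (Sum.inr y)).2).permanent ≠ 0 := by
  classical
  intro F _ p hp hF n B hB hch
  set v : Fin p × Fin n → Fin n → F := fun c => (B c.1).col c.2 with hv
  have H : Hyp p v := by
    refine ⟨by simp, fun U => ?_, fun K₁ K₂ h1 h2 => hch K₁ K₂ h1.1 h1.2 h2.1 h2.2⟩
    rw [Finset.card_eq_sum_card_fiberwise (f := Prod.fst) (t := univ) (fun _ _ => mem_univ _)]
    refine (Finset.sum_le_card_nsmul _ _ (Module.finrank F U) fun i _ => ?_).trans (by simp)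
    have hli : LinearIndependent F (fun j => v (i, j)) :=
      Matrix.linearIndependent_cols_of_det_ne_zero (hB i)
    set s := (univ.filter fun g => v g ∈ U).filter fun g => g.1 = i with hs
    have h2 : LinearIndependent F (fun g : s => (⟨v g, (Finset.mem_filter.1
        (Finset.mem_filter.1 g.2).1).2⟩ : U)) := by
      refine LinearIndependent.of_comp U.subtype ?_
      have := hli.comp (fun g : s => g.1.2) (fun a b hab => Subtype.ext (Prod.ext
        ((Finset.mem_filter.1 a.2).2.trans (Finset.mem_filter.1 b.2).2.symm) hab))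
      convert this using 1
      funext g
      have := (Finset.mem_filter.1 g.2).2
      simp [← this]
    simpa using h2.fintype_card_le_finrank
  obtain ⟨T, hT, hφ⟩ := H.good hp
  have hinj : Function.Injective T := Function.Injective.of_comp hT.injective
  have hc : Fintype.card (Fin (p - 1) × Fin n) = Fintype.card {c // c ∉ Set.range T} := by
    rw [Fintype.card_subtype_compl, Set.card_range_of_injective hinj]
    simp [Nat.sub_mul]
  let e2 := Fintype.equivOfCardEq hc
  refine ⟨((Equiv.ofInjective T hinj).sumCongr e2).trans (Equiv.sumCompl (· ∈ Set.range T)),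
    ?_, ?_⟩
  · rw [← Matrix.det_transpose]
    exact (det_ne_zero_iff _).2 hT
  · have := permanent_eq p (fun y => v (e2 y))
    refine fun h0 => mul_ne_zero (pow_ne_zero n ?_) ?_ (this.symm.trans h0)
    · rw [Ne, CharP.cast_eq_zero_iff F p, hp.dvd_factorial]
      have := hp.one_le
      omega
    · rw [Equiv.prod_comp e2 (fun c => lf (v c))]
      rwa [Finset.prod_subtype (p := fun c => c ∉ Set.range T) _ (by simp)] at hφ

end Pool.Agent.Results.MP_16de82_co.NestedHeavy
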