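import Mathlib
import Pool.Agent.MP_16de82_co.h21.Main

set_option autoImplicit false

namespace Pool.Agent.Results.MP_16de82_co.ThreeHalves

/-- A finite family of vectors over a field of characteristic `p` of which every proper subspace
`W` misses more than `((3 p - 2) codim W - p) / 2` members contains a basis and an Alon-Tarsi
basis that are disjoint. -/
theorem result :
    ∀ (F : Type) [Field F] (p : ℕ), p.Prime → CharP F p →
      ∀ (n : ℕ) (E : Type) [Fintype E] (v : E → Fin n → F),
        (∀ W : Submodule F (Fin n → F), W ≠ ⊤ →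
          (3 * p - 2) * (n - Module.finrank F W) < 2 * {e | v e ∉ W}.ncard + p) →
        ∃ f : (Fin n ⊕ (Fin (p - 1) × Fin n)) ↪ E,
          (Matrix.of fun (r k : Fin n) => v (f (Sum.inl k)) r).det ≠ 0 ∧
          (Matrix.of fun (x y : Fin (p - 1) × Fin n) => v (f (Sum.inr y)) x.2).permanent ≠ 0 :=
  fun _ _ _ hp _ _ _ _ v h => Pool.Agent.MP_16de82_co.h21.three_halves hp v h

end Pool.Agent.Results.MP_16de82_co.ThreeHalves
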