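import Mathlib
import Pool.Agent.MP_16de82_co.h72.Uni

set_option autoImplicit false

namespace Pool.Agent.Results.MP_16de82_co.UnimodularAdditive

/-- If `k` invertible integer matrices form a unimodular system, then even after deleting any one
column every vector is congruent mod `k` to the sum of a subset of the columns. -/
theorem result :
    ∀ (k n : ℕ), 0 < k → ∀ B : Fin k → Matrix (Fin n) (Fin n) ℤ,
      (∀ i, (B i).det ≠ 0) →
      (∀ f : Fin n → Fin k × Fin n, |(Matrix.of fun r j => B (f j).1 r (f j).2).det| ≤ 1) →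
      ∀ (d : Fin k × Fin n) (b : Fin n → ℤ),
        ∃ S : Finset (Fin k × Fin n), d ∉ S ∧
          ∀ r, ∑ e ∈ S, B e.1 r e.2 ≡ b r [ZMOD k] :=
  fun k n hk B hB hu d b => Pool.Agent.MP_16de82_co.h72.unimod k n hk B hB hu d b

end Pool.Agent.Results.MP_16de82_co.UnimodularAdditive
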